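import Pool.Agent.Work.MP_e5ffe1_all.All

set_option autoImplicit false

namespace Pool.Agent.Results.MP_e5ffe1_lc.EveryScottSet

/-- Let `S` be a Scott set of any cardinality (nonempty, closed under Turing reducibility and join,
every infinite binary tree in it has a path in it) and `A ∈ S`. Then there is a nonstandard model of
PA (given as a discretely ordered ring `R` with definable induction) whose standard system contains
`A` and is contained in `S`, and there is a `C ∈ S` modulo which every member of `S` is Turing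
equivalent to a member of the standard system. -/
theorem result :
    ∀ S : Set (Set ℕ), S.Nonempty →
      (∀ X ∈ S, ∀ Y : Set ℕ,
        TuringReducible (fun n => Part.some (Y.indicator (fun _ => (1 : ℕ)) n))
          (fun n => Part.some (X.indicator (fun _ => (1 : ℕ)) n)) → Y ∈ S) →
      (∀ X ∈ S, ∀ Y ∈ S, {m : ℕ | (Even m ∧ m / 2 ∈ X) ∨ (Odd m ∧ m / 2 ∈ Y)} ∈ S) →
      (∀ T ∈ S,
        (∀ l l' : List Bool, List.IsPrefix l' l → Encodable.encode l ∈ T →
          Encodable.encode l' ∈ T) →
        {l : List Bool | Encodable.encode l ∈ T}.Infinite →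
        ∃ f : ℕ → Bool,
          (∀ n : ℕ, Encodable.encode (List.ofFn (fun i : Fin n => f i)) ∈ T) ∧
          {n : ℕ | f n = true} ∈ S) →
      ∀ A ∈ S,
      ∃ (R : Type) (_ : CommRing R) (_ : LinearOrder R) (_ : IsStrictOrderedRing R)
        (_ : FirstOrder.Ring.CompatibleRing R)
        (_ : FirstOrder.Language.order.Structure R)
        (_ : FirstOrder.Language.OrderedStructure FirstOrder.Language.order R),
        (∀ x : R, 0 < x → 1 ≤ x) ∧
        (∀ D : Set (Fin 1 → R),
          (Set.univ : Set R).Definable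
            (FirstOrder.Language.sum FirstOrder.Language.ring FirstOrder.Language.order) D →
          (fun _ : Fin 1 => (0 : R)) ∈ D →
          (∀ x : R, 0 ≤ x → (fun _ : Fin 1 => x) ∈ D → (fun _ : Fin 1 => x + 1) ∈ D) →
          ∀ x : R, 0 ≤ x → (fun _ : Fin 1 => x) ∈ D) ∧
        (∃ c : R, ∀ n : ℕ, (n : R) < c) ∧
        (∃ D : Set (Fin 1 → R),
          (Set.univ : Set R).Definable
            (FirstOrder.Language.sum FirstOrder.Language.ring FirstOrder.Language.order) D ∧
          ∀ n : ℕ, n ∈ A ↔ (fun _ : Fin 1 => (n : R)) ∈ D) ∧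
        (∀ D : Set (Fin 1 → R),
          (Set.univ : Set R).Definable
            (FirstOrder.Language.sum FirstOrder.Language.ring FirstOrder.Language.order) D →
          {n : ℕ | (fun _ : Fin 1 => (n : R)) ∈ D} ∈ S) ∧
        ∃ C ∈ S, ∀ Y ∈ S, ∃ D : Set (Fin 1 → R),
          (Set.univ : Set R).Definable
            (FirstOrder.Language.sum FirstOrder.Language.ring FirstOrder.Language.order) D ∧
          TuringReducible
            (fun n => Part.some (Y.indicator (fun _ => (1 : ℕ)) n))
            (fun n => Part.some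
              (({m : ℕ | (Even m ∧ m / 2 ∈ ({k : ℕ | (fun _ : Fin 1 => (k : R)) ∈ D} : Set ℕ)) ∨
                (Odd m ∧ m / 2 ∈ C)} : Set ℕ).indicator (fun _ => (1 : ℕ)) n)) ∧
          TuringReducible
            (fun n => Part.some
              (({k : ℕ | (fun _ : Fin 1 => (k : R)) ∈ D} : Set ℕ).indicator (fun _ => (1 : ℕ)) n))
            (fun n => Part.some
              (({m : ℕ | (Even m ∧ m / 2 ∈ Y) ∨ (Odd m ∧ m / 2 ∈ C)} : Set ℕ).indicator
                (fun _ => (1 : ℕ)) n)) :=
  fun S h1 h2 h3 h4 A hA => Pool.E5.main_thm S ⟨h1, h2, h3, h4⟩ A hA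

end Pool.Agent.Results.MP_e5ffe1_lc.EveryScottSet
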