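import Pool.Agent.Work.MP_e5ffe1_gen.Main

set_option autoImplicit false

namespace Pool.Agent.Results.MP_e5ffe1_lc.GenericIdeals

open Pool.Agent.Work.MP_e5ffe1_gen

/-- Let `S` be a nonempty family of at most `ℵ₁` sets of natural numbers, closed under Turing
reducibility, join and projection (so under the Turing jump), and `G` a set of reals which are mutually
Cohen-generic over `S`. Then the Turing ideal generated by `S` and `G` (the intersection of all families
which contain `S` and `G` and are closed under Turing reducibility and join) is the standard system of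
a nonstandard model of PA, given as a discretely ordered ring `R` with definable induction. -/
theorem result :
    ∀ S : Set (Set ℕ), S.Nonempty →
      (∀ X ∈ S, ∀ Y : Set ℕ,
        TuringReducible (fun n => Part.some (Y.indicator (fun _ => (1 : ℕ)) n))
          (fun n => Part.some (X.indicator (fun _ => (1 : ℕ)) n)) → Y ∈ S) →
      (∀ X ∈ S, ∀ Y ∈ S, {m : ℕ | (Even m ∧ m / 2 ∈ X) ∨ (Odd m ∧ m / 2 ∈ Y)} ∈ S) →
      (∀ X ∈ S, {m : ℕ | ∃ n : ℕ, Nat.pair m n ∈ X} ∈ S) →
      Cardinal.mk S ≤ Cardinal.aleph 1 →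
      ∀ G : Set (ℕ → Bool), MutGen S G →
      ∃ (R : Type) (_ : CommRing R) (_ : LinearOrder R) (_ : IsStrictOrderedRing R)
        (_ : FirstOrder.Ring.CompatibleRing R)
        (_ : FirstOrder.Language.order.Structure R)
        (_ : FirstOrder.Language.OrderedStructure FirstOrder.Language.order R),
        (∀ x : R, 0 < x → 1 ≤ x) ∧
        (∀ D : Set (Fin 1 → R),
          (Set.univ : Set R).Definable
            (FirstOrder.Language.sum FirstOrder.Language.ring FirstOrder.Language.order) D →
          (fun _ : Fin 1 => (0 : R)) ∈ D →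
          (∀ x : R, 0 ≤ x → (fun _ : Fin 1 => x) ∈ D → (fun _ : Fin 1 => x + 1) ∈ D) →
          ∀ x : R, 0 ≤ x → (fun _ : Fin 1 => x) ∈ D) ∧
        (∃ c : R, ∀ n : ℕ, (n : R) < c) ∧
        (∀ X : Set ℕ,
          (∀ T : Set (Set ℕ), S ⊆ T → (∀ g ∈ G, {n : ℕ | g n = true} ∈ T) →
            (∀ Z ∈ T, ∀ Y : Set ℕ,
              TuringReducible (fun n => Part.some (Y.indicator (fun _ => (1 : ℕ)) n))
                (fun n => Part.some (Z.indicator (fun _ => (1 : ℕ)) n)) → Y ∈ T) →
            (∀ Z ∈ T, ∀ Y ∈ T, {m : ℕ | (Even m ∧ m / 2 ∈ Z) ∨ (Odd m ∧ m / 2 ∈ Y)} ∈ T) →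
            X ∈ T) ↔
          ∃ D : Set (Fin 1 → R),
            (Set.univ : Set R).Definable
              (FirstOrder.Language.sum FirstOrder.Language.ring FirstOrder.Language.order) D ∧
            ∀ n : ℕ, n ∈ X ↔ (fun _ : Fin 1 => (n : R)) ∈ D) :=
  fun S hne htr hjoin hproj hcard G hG => theoremK S hne htr hjoin hproj hcard G hG

end Pool.Agent.Results.MP_e5ffe1_lc.GenericIdeals
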