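import Pool.Agent.Work.MP_e5ffe1_lc_helper93.Final

set_option autoImplicit false

namespace Pool.Agent.Results.MP_e5ffe1_lc.ModuloOneReal

open Pool.Agent.Work.MP_e5ffe1_h93

/-- There is one set `C` such that every nonempty family `S` of sets of natural numbers that is closed
under joins agrees, modulo `C` and Turing reducibility, with the standard system of a nonstandard model
of PA (given as a discretely ordered ring `R` with definable induction). -/
theorem result :
    ∃ C : Set ℕ, ∀ S : Set (Set ℕ), S.Nonempty →
      (∀ X ∈ S, ∀ Y ∈ S, {m : ℕ | (Even m ∧ m / 2 ∈ X) ∨ (Odd m ∧ m / 2 ∈ Y)} ∈ S) →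
      ∃ (R : Type) (_ : CommRing R) (_ : LinearOrder R) (_ : IsStrictOrderedRing R)
        (_ : FirstOrder.Ring.CompatibleRing R)
        (_ : FirstOrder.Language.order.Structure R)
        (_ : FirstOrder.Language.OrderedStructure FirstOrder.Language.order R),
        (∀ x : R, 0 < x → 1 ≤ x) ∧
        (∀ D : Set (Fin 1 → R),
          (Set.univ : Set R).Definable
            (FirstOrder.Language.sum FirstOrder.Language.ring FirstOrder.Language.order) D →
          (fun _ : Fin 1 => (0 : R)) ∈ D →
          (∀ x : R, 0 ≤ x → (fun _ : Fin 1 => x) ∈ D → (fun _ : Fin 1 => x + 1) ∈ D) →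
          ∀ x : R, 0 ≤ x → (fun _ : Fin 1 => x) ∈ D) ∧
        (∃ c : R, ∀ n : ℕ, (n : R) < c) ∧
        (∀ D : Set (Fin 1 → R),
          (Set.univ : Set R).Definable
            (FirstOrder.Language.sum FirstOrder.Language.ring FirstOrder.Language.order) D →
          ∃ Y ∈ S, TuringReducible
            (fun n => Part.some
              (({k : ℕ | (fun _ : Fin 1 => (k : R)) ∈ D} : Set ℕ).indicator (fun _ => (1 : ℕ)) n))
            (fun n => Part.some
              (({m : ℕ | (Even m ∧ m / 2 ∈ Y) ∨ (Odd m ∧ m / 2 ∈ C)} : Set ℕ).indicator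
                (fun _ => (1 : ℕ)) n))) ∧
        (∀ Y ∈ S, ∃ D : Set (Fin 1 → R),
          (Set.univ : Set R).Definable
            (FirstOrder.Language.sum FirstOrder.Language.ring FirstOrder.Language.order) D ∧
          TuringReducible
            (fun n => Part.some (Y.indicator (fun _ => (1 : ℕ)) n))
            (fun n => Part.some
              (({m : ℕ | (Even m ∧ m / 2 ∈ ({k : ℕ | (fun _ : Fin 1 => (k : R)) ∈ D} : Set ℕ)) ∨
                (Odd m ∧ m / 2 ∈ C)} : Set ℕ).indicator (fun _ => (1 : ℕ)) n))) :=
  main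

end Pool.Agent.Results.MP_e5ffe1_lc.ModuloOneReal
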